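import Pool.Agent.H94.C1.Targets

/-!
# HWA: weighted estimates on the hyperboloid
-/

set_option autoImplicit false

namespace Pool.Agent.H34.C1

open MeasureTheory Set FourierTransform Pool.Agent.H82.KL Pool.Agent.H94.C1
open scoped ENNReal NNReal SchwartzMap

theorem hwa_sq (z : ℂ) : ‖z‖ₑ ^ 2 = ENNReal.ofReal (‖z‖ ^ 2) := by
  rw [← ofReal_norm, ENNReal.ofReal_pow (norm_nonneg _)]

theorem hwa_hy {d : ℕ} (x : EE d) : hy x ^ 2 = 1 + ‖x‖ ^ 2 ∧ 0 < hy x := by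
  unfold hy
  have h : 0 < 1 + ‖x‖ ^ 2 := by positivity
  exact ⟨Real.sq_sqrt h.le, Real.sqrt_pos.2 h⟩

theorem pf_HWA (hS : T_SYM) (hF : T_FLX) (hI : T_IDN) : T_HWA := by
  intro d hd
  have hd2 : (0 : ℝ) < (d : ℝ) - 2 := by
    have : (3 : ℝ) ≤ d := by exact_mod_cast hd
    linarith
  set A : ℝ := 8 * Real.pi ^ 2 with hA
  have hA0 : 0 ≤ A := by positivity
  set B : ℝ := 4 / ((d : ℝ) - 2) ^ 2 with hB
  have hB0 : 0 ≤ B := by positivity
  refine ⟨Real.toNNReal (A * (1 + B)), fun c hc => ⟨fun j => ?_, ?_⟩⟩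
  · obtain ⟨b, hb, hbc⟩ := (hS d c hc).2.2.2.2.1
    have h1 := (hF d b hd hb).1
    rw [hbc] at h1
    have h2 : ∀ x : EE d, ‖U (pd j c) (x, hy x)‖ₑ ^ 2 * wt x ≤
        ENNReal.ofReal (gr (onG b hy) x) := by
      intro x
      have h3 := hI d b j x hb
      rw [hbc] at h3
      obtain ⟨h4, h5⟩ := hwa_hy x
      have h6 : ‖U (pd j c) (x, hy x)‖ ^ 2 =
          (1 + ‖x‖ ^ 2) * ‖fderiv ℝ (onG b hy) x (ei j)‖ ^ 2 := by
        rw [← norm_neg (U (pd j c) (x, hy x)), ← h3, norm_mul, Complex.norm_real,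
          Real.norm_of_nonneg h5.le, mul_pow, h4]
      unfold wt
      rw [hwa_sq, ← ENNReal.ofReal_mul (by positivity), h6]
      refine ENNReal.ofReal_le_ofReal ?_
      have h7 : (1 + ‖x‖ ^ 2) * ‖fderiv ℝ (onG b hy) x (ei j)‖ ^ 2 * (1 / (1 + ‖x‖ ^ 2)) =
          ‖fderiv ℝ (onG b hy) x (ei j)‖ ^ 2 := by
        have h8 : (1 + ‖x‖ ^ 2) ≠ 0 := by positivity
        field_simp
      rw [h7]
      unfold gr
      exact Finset.single_le_sum (f := fun j => ‖fderiv ℝ (onG b hy) x (ei j)‖ ^ 2)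
        (fun i _ => by positivity) (Finset.mem_univ j)
    refine (lintegral_mono h2).trans (h1.trans (mul_le_mul_left ?_ _))
    rw [ENNReal.ofReal]
    exact_mod_cast Real.toNNReal_le_toNNReal (by nlinarith)
  · have h1 := (hF d c hd hc).2
    have h2 : ENNReal.ofReal B * ENNReal.ofReal (((d : ℝ) - 2) ^ 2 / 4) = 1 := by
      rw [← ENNReal.ofReal_mul hB0]
      have h3 : B * (((d : ℝ) - 2) ^ 2 / 4) = 1 := by
        rw [hB]
        have := hd2.ne'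
        field_simp
      rw [h3, ENNReal.ofReal_one]
    calc ∫⁻ x : EE d, ‖U c (x, hy x)‖ₑ ^ 2 * wt x
        = ENNReal.ofReal B * (ENNReal.ofReal (((d : ℝ) - 2) ^ 2 / 4) *
            ∫⁻ x : EE d, ‖onG c hy x‖ₑ ^ 2 * wt x) := by
          rw [← mul_assoc, h2, one_mul]
          rfl
      _ ≤ ENNReal.ofReal B * (ENNReal.ofReal A * ∫⁻ ξ, ‖mn c ξ‖ₑ ^ 2) := by gcongr
      _ = ENNReal.ofReal (B * A) * ∫⁻ ξ, ‖mn c ξ‖ₑ ^ 2 := by
          rw [← mul_assoc, ENNReal.ofReal_mul hB0]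
      _ ≤ _ := by
          refine mul_le_mul_left ?_ _
          rw [ENNReal.ofReal]
          exact_mod_cast Real.toNNReal_le_toNNReal (by nlinarith)

end Pool.Agent.H34.C1
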