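import Pool.Agent.H94.C1.Targets

/-!
# KIB: kernel inequality at frequency one and time `R`, `p ≥ 3`
-/

set_option autoImplicit false

namespace Pool.Agent.H34.C1

open MeasureTheory Set FourierTransform Pool.Agent.H82.KL Pool.Agent.H94.C1
open scoped ENNReal NNReal SchwartzMap

theorem pf_KIB (hT : T_TWG) (hP : T_PT) (hJ : T_JEN) : T_KIB := by
  intro d p a hd hp ha
  obtain ⟨C1, h1⟩ := hT d a hd ha
  obtain ⟨C2, h2⟩ := hP d a (by omega) ha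
  obtain ⟨C3, h3⟩ := hJ d (p - 2) (by omega) (by linarith)
  have hp2 : 0 ≤ p - 2 := by linarith
  refine ⟨C2 ^ (p - 2) * C3 * C1, fun R f hR hf => ?_⟩
  have hR0 : 0 < R := by linarith
  set g : EE d → ℝ≥0∞ := fun y => ‖f y‖ₑ ^ (p - 2) with hg
  have hgm : Measurable g := (hf.1.enorm).pow_const _
  set E : ℝ≥0∞ := ENNReal.ofReal (R ^ (((d : ℝ) - 1) * (p - 3) - ((d : ℝ) - 1) * (p - 2) / 2))
    with hE
  have hpt : ∀ t ∈ Icc R (2 * R), ∀ x : EE d, ‖W a f (x, t)‖ₑ ^ p ≤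
      ((C2 : ℝ≥0∞) ^ (p - 2) * C3 * E) * (‖W a f (x, t)‖ₑ ^ 2 * av g (x, t)) := by
    intro t ht x
    have e1 : ‖W a f (x, t)‖ₑ ^ p = ‖W a f (x, t)‖ₑ ^ 2 * ‖W a f (x, t)‖ₑ ^ (p - 2) := by
      have h4 : p = 2 + (p - 2) := by ring
      conv_lhs => rw [h4]
      rw [ENNReal.rpow_add_of_nonneg _ _ (by norm_num) hp2]
      congr 1
      exact_mod_cast ENNReal.rpow_natCast _ 2
    have e2 := ENNReal.rpow_le_rpow (h2 R f (x, t) hR ht.1 ht.2) hp2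
    rw [ENNReal.mul_rpow_of_nonneg _ _ hp2, ENNReal.mul_rpow_of_nonneg _ _ hp2,
      ENNReal.ofReal_rpow_of_pos (Real.rpow_pos_of_pos hR0 _), ← Real.rpow_mul hR0.le] at e2
    have e3 := h3 R (fun y => ‖f y‖ₑ) (x, t) hR ht.1 ht.2 hf.1.enorm
    have e4 : ENNReal.ofReal (R ^ (-(((d : ℝ) - 1) / 2) * (p - 2))) *
        ENNReal.ofReal (R ^ (((d : ℝ) - 1) * (p - 2 - 1))) = E := by
      rw [← ENNReal.ofReal_mul (Real.rpow_nonneg hR0.le _), ← Real.rpow_add hR0, hE]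
      congr 2
      ring
    calc ‖W a f (x, t)‖ₑ ^ p = ‖W a f (x, t)‖ₑ ^ 2 * ‖W a f (x, t)‖ₑ ^ (p - 2) := e1
      _ ≤ ‖W a f (x, t)‖ₑ ^ 2 * ((C2 : ℝ≥0∞) ^ (p - 2) *
            ENNReal.ofReal (R ^ (-(((d : ℝ) - 1) / 2) * (p - 2))) *
            (C3 * ENNReal.ofReal (R ^ (((d : ℝ) - 1) * (p - 2 - 1))) * av g (x, t))) :=
          mul_le_mul_right (e2.trans (mul_le_mul_right e3 _)) _
      _ = ((C2 : ℝ≥0∞) ^ (p - 2) * C3 *
            (ENNReal.ofReal (R ^ (-(((d : ℝ) - 1) / 2) * (p - 2))) *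
              ENNReal.ofReal (R ^ (((d : ℝ) - 1) * (p - 2 - 1))))) *
            (‖W a f (x, t)‖ₑ ^ 2 * av g (x, t)) := by ring
      _ = _ := by rw [e4]
  have hc : ((C2 : ℝ≥0∞) ^ (p - 2) * C3 * E) ≠ ⊤ := by
    refine ENNReal.mul_ne_top (ENNReal.mul_ne_top ?_ ENNReal.coe_ne_top) ENNReal.ofReal_ne_top
    exact ENNReal.rpow_ne_top_of_nonneg hp2 ENNReal.coe_ne_top
  calc ∫⁻ t in Icc R (2 * R), ∫⁻ x : EE d, ‖W a f (x, t)‖ₑ ^ p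
      ≤ ∫⁻ t in Icc R (2 * R), ((C2 : ℝ≥0∞) ^ (p - 2) * C3 * E) *
          ∫⁻ x : EE d, ‖W a f (x, t)‖ₑ ^ 2 * av g (x, t) := by
        refine setLIntegral_mono' measurableSet_Icc fun t ht => ?_
        rw [← lintegral_const_mul' _ _ hc]
        exact lintegral_mono (hpt t ht)
    _ = ((C2 : ℝ≥0∞) ^ (p - 2) * C3 * E) *
          ∫⁻ t in Icc R (2 * R), ∫⁻ x : EE d, ‖W a f (x, t)‖ₑ ^ 2 * av g (x, t) :=
        lintegral_const_mul' _ _ hc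
    _ ≤ ((C2 : ℝ≥0∞) ^ (p - 2) * C3 * E) * (C1 * ∫⁻ z, ‖f z‖ₑ ^ 2 * ka R g z) :=
        mul_le_mul_right (h1 R g f hR hf hgm) _
    _ = _ := by
        rw [ENNReal.coe_mul, ENNReal.coe_mul, ENNReal.coe_rpow_of_nonneg _ hp2]
        ring

end Pool.Agent.H34.C1
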